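import Pool.Agent.H95.Heat.Pow
import Pool.Agent.H13.Heat.GBa
import Pool.Agent.H13.Heat.GBb

/-!
HEAT module D0: the power of a polynomial function and its energy.
-/

namespace Pool.Agent.H95.Heat

open MeasureTheory ProbabilityTheory Pool.Agent.H58.Heat Pool.Agent.H13.Heat

variable {n : ℕ}

lemma abs_pw (p y : ℝ) (hp : 2 < p) : |(|y| ^ (p - 2) * y)| = |y| ^ (p - 1) := by
  rw [abs_mul, abs_of_nonneg (Real.rpow_nonneg (abs_nonneg _) _)]
  rcases eq_or_ne y 0 with rfl | hy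
  · rw [abs_zero, mul_zero, Real.zero_rpow (by linarith)]
  · rw [← Real.rpow_add_one (abs_ne_zero.mpr hy)]
    ring_nf

theorem D0 {n : ℕ} (p : ℝ) (hp : 2 < p) (f : E n → ℝ) (hf : IsPoly f) :
    ContDiff ℝ 1 (fun x => |f x| ^ (p / 2)) ∧ EG (fun x => |f x| ^ (p / 2)) ∧
      EG (fderiv ℝ (fun x => |f x| ^ (p / 2))) ∧
      ∫ x, ‖fderiv ℝ (fun x => |f x| ^ (p / 2)) x‖ ^ 2 ∂gm n =
        p ^ 2 / (4 * (p - 1)) * ∫ x, NN f x * (|f x| ^ (p - 2) * f x) ∂gm n := by
  obtain ⟨hc, he, he', -, -⟩ := GB5 f hf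
  have hc1 : ContDiff ℝ 1 f := hc.of_le le_top
  have hd : ∀ x, DifferentiableAt ℝ f x := fun x =>
    (hc1.differentiable one_ne_zero).differentiableAt
  have hp1 : 1 < p / 2 := by linarith
  refine ⟨(contDiff_abs_rpow hp1).comp hc1, EG.rpow he (by linarith), ?_, ?_⟩
  · have h1 : EG (fun x => |f x| ^ (p / 2 - 1)) := EG.rpow he (by linarith)
    have h2 : EG (fun x => (p / 2) * |f x| ^ (p / 2 - 1)) := (EG.const (n := n) (p / 2)).mul h1
    refine (h2.smul he').mono fun x => ?_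
    rw [(hasFDerivAt_abs_rpow hp1 (hd x)).fderiv, norm_smul, norm_smul]
    refine mul_le_mul_of_nonneg_right ?_ (norm_nonneg _)
    rw [Real.norm_eq_abs, Real.norm_eq_abs, abs_mul, abs_mul, abs_mul, mul_assoc]
    refine mul_le_mul_of_nonneg_left ?_ (abs_nonneg _)
    rw [abs_of_nonneg (Real.rpow_nonneg (abs_nonneg _) _),
      abs_of_nonneg (Real.rpow_nonneg (abs_nonneg _) _)]
    rcases eq_or_ne (f x) 0 with h0 | h0
    · rw [h0, abs_zero, mul_zero]
      exact Real.rpow_nonneg le_rfl _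
    · rw [← Real.rpow_add_one (abs_ne_zero.mpr h0)]
      ring_nf
      exact le_rfl
  · have hu : ContDiff ℝ 1 (fun x => |f x| ^ (p - 2) * f x) := (contDiff_pw hp).comp hc1
    have hu0 : EG (fun x => |f x| ^ (p - 2) * f x) := (EG.rpow he (by linarith)).mul he
    have hfd : ∀ x, fderiv ℝ (fun x => |f x| ^ (p - 2) * f x) x =
        ((p - 1) * |f x| ^ (p - 2)) • fderiv ℝ f x := fun x => (hasFDerivAt_pw hp (hd x)).fderiv
    have hu1 : EG (fderiv ℝ (fun x => |f x| ^ (p - 2) * f x)) := by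
      have : EG (fun x => ((p - 1) * |f x| ^ (p - 2)) • fderiv ℝ f x) :=
        ((EG.const (n := n) (p - 1)).mul (EG.rpow he (by linarith))).smul he'
      exact this.mono fun x => by rw [hfd x]
    rw [GB2 f _ hf hu hu0 hu1]
    have h3 : ∀ x, gd f (fun x => |f x| ^ (p - 2) * f x) x =
        (p - 1) * (|f x| ^ (p - 2) * ‖fderiv ℝ f x‖ ^ 2) := by
      intro x
      rw [← (GB6 f f x).2]
      unfold gd pd
      rw [hfd x, Finset.mul_sum, Finset.mul_sum]
      refine Finset.sum_congr rfl fun i _ => ?_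
      simp only [_root_.smul_apply, smul_eq_mul]
      ring
    simp_rw [h3, norm_sq_fderiv_abs_rpow hp (hd _)]
    rw [integral_const_mul, integral_const_mul]
    have hp2 : p - 1 ≠ 0 := by linarith
    field_simp

end Pool.Agent.H95.Heat
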