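import Pool.Agent.H95.Heat.D0

/-!
HEAT module D1: the cut-off test function.
-/

namespace Pool.Agent.H95.Heat

open MeasureTheory ProbabilityTheory Pool.Agent.H58.Heat Pool.Agent.H13.Heat

/-- smooth cut-off: one on `r ≤ 1`, zero on `r ≥ 2` -/
noncomputable def chi (r : ℝ) : ℝ := Real.smoothTransition (2 - r)

lemma chi_contDiff : ContDiff ℝ 1 chi :=
  (Real.smoothTransition.contDiff (n := 1)).comp (contDiff_const.sub contDiff_id)

lemma chi_nonneg (r : ℝ) : 0 ≤ chi r := Real.smoothTransition.nonneg _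

lemma chi_le_one (r : ℝ) : chi r ≤ 1 := Real.smoothTransition.le_one _

lemma chi_one {r : ℝ} (h : r ≤ 1) : chi r = 1 :=
  Real.smoothTransition.one_of_one_le (by linarith)

lemma chi_zero {r : ℝ} (h : 2 ≤ r) : chi r = 0 :=
  Real.smoothTransition.zero_of_nonpos (by linarith)

/-- bound for `r χ'(r)` -/
lemma exists_chi_bound : ∃ K : ℝ, 0 ≤ K ∧ ∀ r : ℝ, |deriv chi r| ≤ K ∧ |r * deriv chi r| ≤ K ∧
    (2 < r → deriv chi r = 0) := by
  have hcont : Continuous (deriv chi) := chi_contDiff.continuous_deriv le_rfl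
  obtain ⟨K, hK⟩ := (isCompact_Icc (a := (1 : ℝ)) (b := 2)).exists_bound_of_continuousOn
    hcont.continuousOn
  have hK0 : 0 ≤ K := (norm_nonneg _).trans (hK 1 ⟨le_rfl, by norm_num⟩)
  have h1 : ∀ r : ℝ, r < 1 → deriv chi r = 0 := by
    intro r hr
    have : chi =ᶠ[nhds r] fun _ => 1 := by
      filter_upwards [Iio_mem_nhds hr] with s hs
      exact chi_one (le_of_lt hs)
    rw [this.deriv_eq, deriv_const]
  have h2 : ∀ r : ℝ, 2 < r → deriv chi r = 0 := by
    intro r hr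
    have : chi =ᶠ[nhds r] fun _ => 0 := by
      filter_upwards [Ioi_mem_nhds hr] with s hs
      exact chi_zero (le_of_lt hs)
    rw [this.deriv_eq, deriv_const]
  refine ⟨2 * K, by positivity, fun r => ⟨?_, ?_, h2 r⟩⟩
  · rcases lt_or_ge r 1 with hr | hr
    · rw [h1 r hr, abs_zero]; positivity
    · rcases lt_or_ge 2 r with hr2 | hr2
      · rw [h2 r hr2, abs_zero]; positivity
      · have := hK r ⟨hr, hr2⟩
        rw [Real.norm_eq_abs] at this
        linarith
  · rcases lt_or_ge r 1 with hr | hr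
    · rw [h1 r hr, mul_zero, abs_zero]; positivity
    · rcases lt_or_ge 2 r with hr2 | hr2
      · rw [h2 r hr2, mul_zero, abs_zero]; positivity
      · have := hK r ⟨hr, hr2⟩
        rw [Real.norm_eq_abs] at this
        rw [abs_mul, abs_of_nonneg (by linarith : (0 : ℝ) ≤ r)]
        exact mul_le_mul hr2 this (abs_nonneg _) (by norm_num)

/-- on the support of the cut-off the weight is controlled -/
lemma weight_le {p y g : ℝ} (hp : 2 < p) (h : |y| ^ p * Real.exp (-g) ≤ 2) :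
    Real.exp (-((p - 2) / p * g)) * |y| ^ (p - 2) ≤ 2 := by
  have hθ0 : 0 ≤ (p - 2) / p := div_nonneg (by linarith) (by linarith)
  have hθ1 : (p - 2) / p ≤ 1 := by
    rw [div_le_one (by linarith)]
    linarith
  have h1 : Real.exp (-((p - 2) / p * g)) * |y| ^ (p - 2) =
      (|y| ^ p * Real.exp (-g)) ^ ((p - 2) / p) := by
    rw [Real.mul_rpow (Real.rpow_nonneg (abs_nonneg _) _) (Real.exp_pos _).le,
      ← Real.rpow_mul (abs_nonneg _), ← Real.exp_mul, mul_comm]
    congr 2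
    · field_simp
    · ring
  rw [h1]
  have h0 : 0 ≤ |y| ^ p * Real.exp (-g) :=
    mul_nonneg (Real.rpow_nonneg (abs_nonneg _) _) (Real.exp_pos _).le
  calc (|y| ^ p * Real.exp (-g)) ^ ((p - 2) / p) ≤ 2 ^ ((p - 2) / p) :=
        Real.rpow_le_rpow h0 h hθ0
    _ ≤ 2 ^ (1 : ℝ) := Real.rpow_le_rpow_of_exponent_le (by norm_num) hθ1
    _ = 2 := Real.rpow_one _

lemma young {p y g : ℝ} (hp : 2 < p) :
    Real.exp ((p - 2) / p * g) * y ^ 2 ≤ (p - 2) / p * Real.exp g + 2 / p * |y| ^ p := by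
  have h := Real.geom_mean_le_arith_mean2_weighted (w₁ := (p - 2) / p) (w₂ := 2 / p)
    (p₁ := Real.exp g) (p₂ := |y| ^ p) (div_nonneg (by linarith) (by linarith))
    (div_nonneg (by norm_num) (by linarith)) (Real.exp_pos _).le
    (Real.rpow_nonneg (abs_nonneg _) _) (by field_simp; ring)
  refine le_trans (le_of_eq ?_) h
  rw [← Real.exp_mul, ← Real.rpow_mul (abs_nonneg _)]
  congr 1
  · ring_nf
  · have : p * (2 / p) = (2 : ℕ) := by
      push_cast
      field_simp
    rw [this, Real.rpow_natCast, sq_abs]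

lemma rpow_eq {p : ℝ} (hp : 2 < p) (y : ℝ) : |y| ^ p = |y| ^ (p - 2) * y * y := by
  rcases eq_or_ne y 0 with h0 | h0
  · rw [h0, abs_zero, Real.zero_rpow (by linarith)]
    ring
  · have h5 : |y| ^ p = |y| ^ (p - 2) * |y| ^ 2 := by
      rw [← Real.rpow_natCast, ← Real.rpow_add (abs_pos.mpr h0)]
      congr 1
      push_cast
      ring
    rw [h5, sq_abs]
    ring

lemma sq_pw {p : ℝ} (hp : 2 < p) (y : ℝ) :
    (|y| ^ (p - 2) * y) ^ 2 = |y| ^ (p - 2) * |y| ^ p := by
  rw [rpow_eq hp y]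
  ring

lemma hasFDerivAt_r {n : ℕ} {p : ℝ} (hp : 2 < p) {f g : E n → ℝ} {x : E n}
    (hf : DifferentiableAt ℝ f x) (hg : DifferentiableAt ℝ g x) :
    HasFDerivAt (fun x => |f x| ^ p * Real.exp (-g x))
      ((Real.exp (-g x) * (p * |f x| ^ (p - 2) * f x)) • fderiv ℝ f x -
        (|f x| ^ p * Real.exp (-g x)) • fderiv ℝ g x) x := by
  have h1 := hasFDerivAt_abs_rpow (q := p) (by linarith) hf
  have h2 : HasFDerivAt (fun x => Real.exp (-g x)) (Real.exp (-g x) • -fderiv ℝ g x) x :=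
    hg.hasFDerivAt.neg.exp
  refine (h1.mul h2).congr_fderiv ?_
  rw [smul_neg, smul_neg, smul_smul, smul_smul]
  abel

lemma hasFDerivAt_u {n : ℕ} {p : ℝ} (hp : 2 < p) {f g : E n → ℝ} {x : E n}
    (hf : DifferentiableAt ℝ f x) (hg : DifferentiableAt ℝ g x) :
    HasFDerivAt (fun x => (|f x| ^ (p - 2) * f x) * chi (|f x| ^ p * Real.exp (-g x)))
      ((|f x| ^ (p - 2) * ((p - 1) * chi (|f x| ^ p * Real.exp (-g x)) +
          p * ((|f x| ^ p * Real.exp (-g x)) * deriv chi (|f x| ^ p * Real.exp (-g x))))) •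
            fderiv ℝ f x -
        ((|f x| ^ (p - 2) * f x) *
          ((|f x| ^ p * Real.exp (-g x)) * deriv chi (|f x| ^ p * Real.exp (-g x)))) •
            fderiv ℝ g x) x := by
  have h1 := hasFDerivAt_pw hp hf
  have h2 := hasFDerivAt_r hp hf hg
  have h3 : HasFDerivAt (fun x => chi (|f x| ^ p * Real.exp (-g x))) _ x :=
    ((chi_contDiff.differentiable one_ne_zero).differentiableAt.hasDerivAt).comp_hasFDerivAt x h2
  refine (h1.mul h3).congr_fderiv ?_
  have h4 := rpow_eq hp (f x)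
  rw [smul_sub, smul_sub, smul_smul, smul_smul, smul_smul, smul_smul, smul_smul, add_comm,
    ← add_sub_assoc, ← add_smul]
  congr 2
  · rw [h4]
    ring
  · ring

/-- bound for the gradient of the test function -/
lemma norm_fderiv_u_le {n : ℕ} {p K L : ℝ} (hp : 2 < p) (hK : 0 ≤ K)
    (hχ : ∀ r : ℝ, |deriv chi r| ≤ K ∧ |r * deriv chi r| ≤ K ∧ (2 < r → deriv chi r = 0))
    {f g : E n → ℝ} {x : E n}
    (hf : DifferentiableAt ℝ f x) (hg : DifferentiableAt ℝ g x) (hL : ‖fderiv ℝ g x‖ ≤ L) :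
    ‖fderiv ℝ (fun x => (|f x| ^ (p - 2) * f x) * chi (|f x| ^ p * Real.exp (-g x))) x‖ ≤
      |f x| ^ (p - 2) * ((p - 1) + p * K) * ‖fderiv ℝ f x‖ + |f x| ^ (p - 1) * K * L := by
  rw [(hasFDerivAt_u hp hf hg).fderiv]
  refine (norm_sub_le _ _).trans ?_
  rw [norm_smul, norm_smul]
  obtain ⟨-, h1, -⟩ := hχ (|f x| ^ p * Real.exp (-g x))
  set r := |f x| ^ p * Real.exp (-g x)
  have h0 : 0 ≤ |f x| ^ (p - 2) := Real.rpow_nonneg (abs_nonneg _) _
  have hL0 : 0 ≤ L := (norm_nonneg _).trans hL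
  refine add_le_add ?_ ?_
  · refine mul_le_mul_of_nonneg_right ?_ (norm_nonneg _)
    rw [norm_mul, Real.norm_of_nonneg h0]
    refine mul_le_mul_of_nonneg_left ?_ h0
    refine (norm_add_le _ _).trans (add_le_add ?_ ?_)
    · rw [norm_mul, Real.norm_of_nonneg (by linarith : (0 : ℝ) ≤ p - 1),
        Real.norm_of_nonneg (chi_nonneg _)]
      exact mul_le_of_le_one_right (by linarith) (chi_le_one _)
    · rw [norm_mul, Real.norm_of_nonneg (by linarith : (0 : ℝ) ≤ p)]
      exact mul_le_mul_of_nonneg_left h1 (by linarith)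
  · rw [norm_mul, Real.norm_eq_abs, abs_pw p _ hp]
    refine mul_le_mul ?_ hL (norm_nonneg _) ?_
    · exact mul_le_mul_of_nonneg_left h1 (Real.rpow_nonneg (abs_nonneg _) _)
    · exact mul_nonneg (Real.rpow_nonneg (abs_nonneg _) _) hK

theorem D1 (p : ℝ) (hp : 2 < p) : ∃ C : ℝ, 0 < C ∧ ∀ (n : ℕ) (f : E n → ℝ), IsPoly f →
    (∫ x, |f x| ^ p ∂gm n = 1) → ∀ (L : ℝ), 0 < L → ∀ g : E n → ℝ, ContDiff ℝ 1 g →
    (∀ x, ‖fderiv ℝ g x‖ ≤ L) → ∫ x, Real.exp (g x) ∂gm n ≤ Real.exp 2 →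
    (∫ x, Real.exp ((p - 2) / p * g x) * f x ^ 2 ∂gm n ≤ 8) ∧
    ∃ u : E n → ℝ, ContDiff ℝ 1 u ∧ EG u ∧ EG (fderiv ℝ u) ∧
      (∫ x, (if |f x| ^ p ≤ Real.exp (g x) then |f x| ^ p else 0) ∂gm n ≤
        ∫ x, f x * u x ∂gm n) ∧
      (∫ x, Real.exp (-((p - 2) / p * g x)) * u x ^ 2 ∂gm n ≤ 2) ∧
      (∫ x, Real.exp (-((p - 2) / p * g x)) * ‖fderiv ℝ u x‖ ^ 2 ∂gm n ≤
        C * (∫ x, ‖fderiv ℝ (fun x => |f x| ^ (p / 2)) x‖ ^ 2 ∂gm n + L ^ 2)) := by
  obtain ⟨K, hK, hχ⟩ := exists_chi_bound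
  have hA : 0 ≤ (p - 1) + p * K := add_nonneg (by linarith) (mul_nonneg (by linarith) hK)
  refine ⟨4 * (((p - 1) + p * K) ^ 2 * (4 / p ^ 2) + K ^ 2) + 1, by positivity, ?_⟩
  intro n f hf hnorm L hL g hg hgL hexp
  obtain ⟨hc, he, he', -, -⟩ := GB5 f hf
  obtain ⟨hF1, hF2, hF3, -⟩ := D0 p hp f hf
  have hc1 : ContDiff ℝ 1 f := hc.of_le le_top
  have hd : ∀ x, DifferentiableAt ℝ f x := fun x =>
    (hc1.differentiable one_ne_zero).differentiableAt
  have hdg : ∀ x, DifferentiableAt ℝ g x := fun x =>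
    (hg.differentiable one_ne_zero).differentiableAt
  have hlip : Lip L g := Lip.of_fderiv hg hgL
  have hθ0 : 0 ≤ (p - 2) / p := div_nonneg (by linarith) (by linarith)
  have hcf : Continuous f := hc1.continuous
  have hcg : Continuous g := hg.continuous
  have hcfp : ∀ q : ℝ, 0 ≤ q → Continuous fun x => |f x| ^ q := fun q hq =>
    hcf.abs.rpow_const fun _ => Or.inr hq
  have hint : ∀ q : ℝ, 0 ≤ q → Integrable (fun x => |f x| ^ q) (gm n) := fun q hq =>
    GB1 _ (hcfp q hq).aestronglyMeasurable (EG.rpow he hq)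
  have hintg : Integrable (fun x => Real.exp (g x)) (gm n) := by
    refine GB1 _ (Real.continuous_exp.comp hcg).aestronglyMeasurable ?_
    simpa using hlip.eg_exp 1
  have hr : ContDiff ℝ 1 (fun x => |f x| ^ p * Real.exp (-g x)) :=
    ((contDiff_abs_rpow (by linarith)).comp hc1).mul (Real.contDiff_exp.comp hg.neg)
  have hu : ContDiff ℝ 1 (fun x => (|f x| ^ (p - 2) * f x) *
      chi (|f x| ^ p * Real.exp (-g x))) :=
    ((contDiff_pw hp).comp hc1).mul (chi_contDiff.comp hr)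
  have huE : EG (fun x => (|f x| ^ (p - 2) * f x) * chi (|f x| ^ p * Real.exp (-g x))) := by
    refine ((EG.rpow he (q := p - 2) (by linarith)).mul he).mono fun x => ?_
    rw [norm_mul _ (chi _), Real.norm_of_nonneg (chi_nonneg _)]
    exact mul_le_of_le_one_right (norm_nonneg _) (chi_le_one _)
  have hbd : ∀ x, ‖fderiv ℝ (fun x => (|f x| ^ (p - 2) * f x) *
      chi (|f x| ^ p * Real.exp (-g x))) x‖ ≤
      |f x| ^ (p - 2) * ((p - 1) + p * K) * ‖fderiv ℝ f x‖ + |f x| ^ (p - 1) * K * L :=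
    fun x => norm_fderiv_u_le hp hK hχ (hd x) (hdg x) (hgL x)
  refine ⟨?_, _, hu, huE, ?_, ?_, ?_, ?_⟩
  · have h1 : ∫ x, Real.exp ((p - 2) / p * g x) * f x ^ 2 ∂gm n ≤
        ∫ x, ((p - 2) / p * Real.exp (g x) + 2 / p * |f x| ^ p) ∂gm n := by
      refine integral_mono_of_nonneg (Filter.Eventually.of_forall fun x => by positivity)
        ((hintg.const_mul _).add ((hint p (by linarith)).const_mul _))
        (Filter.Eventually.of_forall fun x => young hp)
    rw [integral_add (hintg.const_mul _) ((hint p (by linarith)).const_mul _),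
      integral_const_mul, integral_const_mul, hnorm] at h1
    have h2 : (p - 2) / p + 2 / p = 1 := by field_simp; ring
    have h3 : Real.exp 2 ≤ 8 := by
      have := Real.exp_one_lt_d9
      have h4 : Real.exp 2 = Real.exp 1 * Real.exp 1 := by rw [← Real.exp_add]; norm_num
      rw [h4]
      nlinarith [Real.exp_pos 1]
    have h5 : (p - 2) / p * ∫ x, Real.exp (g x) ∂gm n ≤ (p - 2) / p * Real.exp 2 :=
      mul_le_mul_of_nonneg_left hexp hθ0
    have h6 : 0 ≤ 2 / p := div_nonneg (by norm_num) (by linarith)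
    have h7 : (1 : ℝ) ≤ Real.exp 2 := Real.one_le_exp (by norm_num)
    nlinarith
  · have : EG (fun x => (|f x| ^ (p - 2) * ((p - 1) + p * K) * ‖fderiv ℝ f x‖ +
        |f x| ^ (p - 1) * K * L)) :=
      ((((EG.rpow he (q := p - 2) (by linarith)).mul (EG.const _)).mul he'.norm).add
        (((EG.rpow he (q := p - 1) (by linarith)).mul (EG.const _)).mul (EG.const _)))
    refine this.mono fun x => (hbd x).trans (le_abs_self _)
  · refine integral_mono_of_nonneg (Filter.Eventually.of_forall fun x => ?_)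
      (GB1 _ (hcf.mul hu.continuous).aestronglyMeasurable (he.mul huE))
      (Filter.Eventually.of_forall fun x => ?_)
    · show (0 : ℝ) ≤ if |f x| ^ p ≤ Real.exp (g x) then |f x| ^ p else 0
      split_ifs
      · exact Real.rpow_nonneg (abs_nonneg _) _
      · exact le_rfl
    · show (if |f x| ^ p ≤ Real.exp (g x) then |f x| ^ p else 0) ≤
        f x * ((|f x| ^ (p - 2) * f x) * chi (|f x| ^ p * Real.exp (-g x)))
      have h4 : f x * ((|f x| ^ (p - 2) * f x) * chi (|f x| ^ p * Real.exp (-g x))) =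
          |f x| ^ p * chi (|f x| ^ p * Real.exp (-g x)) := by
        rw [rpow_eq hp (f x)]
        ring
      rw [h4]
      have h0 : 0 ≤ |f x| ^ p := Real.rpow_nonneg (abs_nonneg _) _
      split_ifs with h
      · rw [chi_one, mul_one]
        rw [Real.exp_neg, mul_inv_le_iff₀ (Real.exp_pos _), one_mul]
        exact h
      · exact mul_nonneg h0 (chi_nonneg _)
  · have h1 : ∫ x, Real.exp (-((p - 2) / p * g x)) * ((|f x| ^ (p - 2) * f x) *
        chi (|f x| ^ p * Real.exp (-g x))) ^ 2 ∂gm n ≤ ∫ x, 2 * |f x| ^ p ∂gm n := by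
      refine integral_mono_of_nonneg (Filter.Eventually.of_forall fun x => by positivity)
        ((hint p (by linarith)).const_mul _) (Filter.Eventually.of_forall fun x => ?_)
      show Real.exp (-((p - 2) / p * g x)) * ((|f x| ^ (p - 2) * f x) *
        chi (|f x| ^ p * Real.exp (-g x))) ^ 2 ≤ 2 * |f x| ^ p
      have h0 : 0 ≤ |f x| ^ p := Real.rpow_nonneg (abs_nonneg _) _
      rcases le_or_gt (|f x| ^ p * Real.exp (-g x)) 2 with h | h
      · have h2 := weight_le hp h
        have h3 := sq_pw hp (f x)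
        have h4 : chi (|f x| ^ p * Real.exp (-g x)) ^ 2 ≤ 1 :=
          pow_le_one₀ (chi_nonneg _) (chi_le_one _)
        rw [mul_pow, h3]
        have h5 : 0 ≤ Real.exp (-((p - 2) / p * g x)) * (|f x| ^ (p - 2) * |f x| ^ p) := by
          positivity
        calc _ = Real.exp (-((p - 2) / p * g x)) * (|f x| ^ (p - 2) * |f x| ^ p) *
              chi (|f x| ^ p * Real.exp (-g x)) ^ 2 := by ring
          _ ≤ Real.exp (-((p - 2) / p * g x)) * (|f x| ^ (p - 2) * |f x| ^ p) * 1 :=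
              mul_le_mul_of_nonneg_left h4 h5
          _ = Real.exp (-((p - 2) / p * g x)) * |f x| ^ (p - 2) * |f x| ^ p := by ring
          _ ≤ 2 * |f x| ^ p := mul_le_mul_of_nonneg_right h2 h0
      · rw [chi_zero h.le]
        rw [mul_zero, zero_pow two_ne_zero, mul_zero]
        positivity
    rw [integral_const_mul, hnorm, mul_one] at h1
    exact h1
  · have hi1 : Integrable (fun x => ‖fderiv ℝ (fun x => |f x| ^ (p / 2)) x‖ ^ 2) (gm n) :=
      GB1 _ ((hF1.continuous_fderiv one_ne_zero).norm.pow 2).aestronglyMeasurable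
        (hF3.norm.pow 2)
    have h1 : ∫ x, Real.exp (-((p - 2) / p * g x)) * ‖fderiv ℝ (fun x => (|f x| ^ (p - 2) * f x) *
        chi (|f x| ^ p * Real.exp (-g x))) x‖ ^ 2 ∂gm n ≤
        ∫ x, ((4 * (((p - 1) + p * K) ^ 2 * (4 / p ^ 2))) *
          ‖fderiv ℝ (fun x => |f x| ^ (p / 2)) x‖ ^ 2 + (4 * K ^ 2 * L ^ 2) * |f x| ^ p) ∂gm n := by
      refine integral_mono_of_nonneg (Filter.Eventually.of_forall fun x => by positivity)
        ((hi1.const_mul _).add ((hint p (by linarith)).const_mul _))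
        (Filter.Eventually.of_forall fun x => ?_)
      show Real.exp (-((p - 2) / p * g x)) * ‖fderiv ℝ (fun x => (|f x| ^ (p - 2) * f x) *
        chi (|f x| ^ p * Real.exp (-g x))) x‖ ^ 2 ≤ (4 * (((p - 1) + p * K) ^ 2 * (4 / p ^ 2))) *
          ‖fderiv ℝ (fun x => |f x| ^ (p / 2)) x‖ ^ 2 + (4 * K ^ 2 * L ^ 2) * |f x| ^ p
      have h0 : 0 ≤ |f x| ^ p := Real.rpow_nonneg (abs_nonneg _) _
      have h02 : 0 ≤ |f x| ^ (p - 2) := Real.rpow_nonneg (abs_nonneg _) _
      rcases le_or_gt (|f x| ^ p * Real.exp (-g x)) 2 with h | h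
      · have h2 := weight_le hp h
        have h3 : (|f x| ^ (p - 1)) ^ 2 = |f x| ^ (p - 2) * |f x| ^ p := by
          rw [← abs_pw p (f x) hp, sq_abs, sq_pw hp]
        have h4 := norm_sq_fderiv_abs_rpow hp (hd x)
        have h5 := hbd x
        rw [h4]
        set a := |f x| ^ (p - 2)
        set b := |f x| ^ (p - 1)
        set G := ‖fderiv ℝ f x‖
        set W := Real.exp (-((p - 2) / p * g x))
        set A := (p - 1) + p * K
        set D := ‖fderiv ℝ (fun x => (|f x| ^ (p - 2) * f x) *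
          chi (|f x| ^ p * Real.exp (-g x))) x‖
        have hD0 : 0 ≤ D := norm_nonneg _
        have hW : 0 < W := Real.exp_pos _
        have h6 : D ^ 2 ≤ 2 * (a * A * G) ^ 2 + 2 * (b * K * L) ^ 2 := by
          have h7 : D ^ 2 ≤ (a * A * G + b * K * L) ^ 2 := pow_le_pow_left₀ hD0 h5 2
          nlinarith [sq_nonneg (a * A * G - b * K * L)]
        have h8 : W * D ^ 2 ≤ W * (2 * (a * A * G) ^ 2 + 2 * (b * K * L) ^ 2) :=
          mul_le_mul_of_nonneg_left h6 hW.le
        have h9 : W * (2 * (a * A * G) ^ 2 + 2 * (b * K * L) ^ 2) =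
            W * a * (2 * (a * (A * G) ^ 2) + 2 * (K ^ 2 * L ^ 2 * |f x| ^ p)) := by
          have : (b * K * L) ^ 2 = a * |f x| ^ p * (K ^ 2 * L ^ 2) := by
            rw [← h3]; ring
          rw [this]
          ring
        have h10 : W * a * (2 * (a * (A * G) ^ 2) + 2 * (K ^ 2 * L ^ 2 * |f x| ^ p)) ≤
            2 * (2 * (a * (A * G) ^ 2) + 2 * (K ^ 2 * L ^ 2 * |f x| ^ p)) :=
          mul_le_mul_of_nonneg_right h2 (by positivity)
        refine h8.trans (h9.le.trans (h10.trans (le_of_eq ?_)))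
        have hp0 : p ≠ 0 := by linarith
        field_simp
        ring
      · have h2 : fderiv ℝ (fun x => (|f x| ^ (p - 2) * f x) *
            chi (|f x| ^ p * Real.exp (-g x))) x = 0 := by
          rw [(hasFDerivAt_u hp (hd x) (hdg x)).fderiv, chi_zero h.le, (hχ _).2.2 h]
          simp
        rw [h2, norm_zero, zero_pow two_ne_zero, mul_zero]
        positivity
    rw [integral_add (hi1.const_mul _) ((hint p (by linarith)).const_mul _),
      integral_const_mul, integral_const_mul, hnorm] at h1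
    refine h1.trans ?_
    have h3 : 0 ≤ ∫ x, ‖fderiv ℝ (fun x => |f x| ^ (p / 2)) x‖ ^ 2 ∂gm n :=
      integral_nonneg fun x => by positivity
    have h4 : 0 ≤ ((p - 1) + p * K) ^ 2 * (4 / p ^ 2) := by positivity
    nlinarith [mul_nonneg h4 (sq_nonneg L), mul_nonneg (sq_nonneg K) h3, sq_nonneg L]

end Pool.Agent.H95.Heat
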