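import Pool.Agent.H58.Heat.EGlib

/-!
Powers of absolute values: smoothness, growth, gradients.
-/

namespace Pool.Agent.H95.Heat

open MeasureTheory ProbabilityTheory Pool.Agent.H58.Heat

variable {n : ℕ}

lemma EG.rpow {f : E n → ℝ} (hf : EG f) {q : ℝ} (hq : 0 ≤ q) : EG (fun x => |f x| ^ q) := by
  obtain ⟨C, hC0, hC⟩ := hf.nonneg_const
  refine EG.of_bound (C ^ q) (C * q) fun x => ?_
  rw [Real.norm_of_nonneg (Real.rpow_nonneg (abs_nonneg _) _)]
  calc |f x| ^ q ≤ (C * Real.exp (C * ‖x‖)) ^ q :=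
        Real.rpow_le_rpow (abs_nonneg _) (hC x) hq
    _ = C ^ q * Real.exp (C * q * ‖x‖) := by
        rw [Real.mul_rpow hC0 (Real.exp_pos _).le, ← Real.exp_mul]
        ring_nf

lemma hasDerivAt_pw {p : ℝ} (hp : 2 < p) (y : ℝ) :
    HasDerivAt (fun y : ℝ => |y| ^ (p - 2) * y) ((p - 1) * |y| ^ (p - 2)) y := by
  rcases eq_or_ne y 0 with rfl | hy
  · rw [abs_zero, Real.zero_rpow (by linarith), mul_zero, hasDerivAt_iff_tendsto_slope_zero]
    have h : Filter.Tendsto (fun t : ℝ => |t| ^ (p - 2)) (nhdsWithin 0 {0}ᶜ) (nhds 0) := by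
      have h1 : Continuous fun t : ℝ => |t| ^ (p - 2) :=
        continuous_abs.rpow_const fun _ => Or.inr (by linarith)
      have h2 := h1.tendsto 0
      rw [abs_zero, Real.zero_rpow (by linarith)] at h2
      exact h2.mono_left nhdsWithin_le_nhds
    refine h.congr' ?_
    filter_upwards [self_mem_nhdsWithin] with t ht
    have ht' : t ≠ 0 := ht
    rw [zero_add, mul_zero, sub_zero, smul_eq_mul]
    field_simp
  · have h1 : HasDerivAt (fun y : ℝ => |y| ^ (p - 2)) (SignType.sign y * (p - 2) * |y| ^ (p - 2 - 1)) y :=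
      (hasDerivAt_abs hy).rpow_const (Or.inl (abs_ne_zero.mpr hy))
    have h2 := h1.mul (hasDerivAt_id y)
    refine h2.congr_deriv ?_
    have h3 : |y| ^ (p - 2) = |y| ^ (p - 2 - 1) * |y| := by
      rw [← Real.rpow_add_one (abs_ne_zero.mpr hy)]
      ring_nf
    have h4 : (SignType.sign y : ℝ) * y = |y| := sign_mul_self y
    simp only [id, mul_one]
    rw [h3]
    linear_combination ((p - 2) * |y| ^ (p - 2 - 1)) * h4

lemma contDiff_pw {p : ℝ} (hp : 2 < p) : ContDiff ℝ 1 (fun y : ℝ => |y| ^ (p - 2) * y) := by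
  rw [contDiff_one_iff_deriv]
  refine ⟨fun y => (hasDerivAt_pw hp y).differentiableAt, ?_⟩
  have : deriv (fun y : ℝ => |y| ^ (p - 2) * y) = fun y => (p - 1) * |y| ^ (p - 2) :=
    funext fun y => (hasDerivAt_pw hp y).deriv
  rw [this]
  exact continuous_const.mul (continuous_abs.rpow_const fun _ => Or.inr (by linarith))

lemma contDiff_abs_rpow {q : ℝ} (hq : 1 < q) : ContDiff ℝ 1 (fun y : ℝ => |y| ^ q) := by
  simpa only [Real.norm_eq_abs] using contDiff_norm_rpow (E := ℝ) hq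

lemma hasFDerivAt_pw {p : ℝ} (hp : 2 < p) {f : E n → ℝ} {x : E n} (hf : DifferentiableAt ℝ f x) :
    HasFDerivAt (fun x => |f x| ^ (p - 2) * f x) (((p - 1) * |f x| ^ (p - 2)) • fderiv ℝ f x) x :=
  (hasDerivAt_pw hp (f x)).comp_hasFDerivAt x hf.hasFDerivAt

lemma hasFDerivAt_abs_rpow {q : ℝ} (hq : 1 < q) {f : E n → ℝ} {x : E n}
    (hf : DifferentiableAt ℝ f x) :
    HasFDerivAt (fun x => |f x| ^ q) ((q * |f x| ^ (q - 2) * f x) • fderiv ℝ f x) x :=
  (hasDerivAt_abs_rpow (f x) hq).comp_hasFDerivAt x hf.hasFDerivAt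

/-- square of the norm of the gradient of the power -/
lemma norm_sq_fderiv_abs_rpow {p : ℝ} (hp : 2 < p) {f : E n → ℝ} {x : E n}
    (hf : DifferentiableAt ℝ f x) :
    ‖fderiv ℝ (fun x => |f x| ^ (p / 2)) x‖ ^ 2 =
      p ^ 2 / 4 * (|f x| ^ (p - 2) * ‖fderiv ℝ f x‖ ^ 2) := by
  rw [(hasFDerivAt_abs_rpow (q := p / 2) (by linarith) hf).fderiv, norm_smul, mul_pow,
    Real.norm_eq_abs, sq_abs]
  rcases eq_or_ne (f x) 0 with h0 | h0
  · rw [h0, abs_zero, Real.zero_rpow (x := p - 2) (by linarith)]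
    ring
  · have hpos : 0 < |f x| := abs_pos.mpr h0
    have h1 : (|f x| ^ (p / 2 - 2)) ^ 2 * |f x| ^ 2 = |f x| ^ (p - 2) := by
      rw [← mul_pow, ← Real.rpow_add_one hpos.ne', ← Real.rpow_natCast, ← Real.rpow_mul hpos.le]
      congr 1
      push_cast
      ring
    rw [← h1, sq_abs]
    ring

end Pool.Agent.H95.Heat
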